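import Mathlib

/-!
# MP_798444_co: a vertex-transitive graph without injective harmonic functions (Q1: no)

The graph on `ℤ × Bool` with `(i, a) ~ (j, b)` iff `|i - j| = 1` is infinite, connected, 4-regular
and vertex-transitive; the twins `(0, false)`, `(0, true)` get equal values under every harmonic
function.
-/

namespace Pool.Agent.Results.MP_798444_co.Twins

open SimpleGraph

/-- `f` is harmonic: `deg v * f v` is the sum of `f` over the neighbours of `v`. -/
def Harmonic {V : Type} (G : SimpleGraph V) [G.LocallyFinite] (f : V → ℤ) : Prop :=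
  ∀ v, (G.degree v : ℤ) * f v = ∑ u ∈ G.neighborFinset v, f u

/-- The automorphism group acts transitively on the vertices. -/
def VertexTransitive {V : Type} (G : SimpleGraph V) : Prop := ∀ u v, ∃ φ : G ≃g G, φ u = v

def T : SimpleGraph (ℤ × Bool) where
  Adj x y := x.1 + 1 = y.1 ∨ y.1 + 1 = x.1
  symm := ⟨fun _ _ h => h.symm⟩
  loopless := ⟨fun x h => by omega⟩

theorem fin (v : ℤ × Bool) : (T.neighborSet v).Finite := by
  refine Set.Finite.subset (Finset.finite_toSet (({v.1 + 1, v.1 - 1} : Finset ℤ) ×ˢ
    (Finset.univ : Finset Bool))) ?_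
  rintro ⟨j, b⟩ h
  have h' : v.1 + 1 = j ∨ j + 1 = v.1 := h
  simp only [Finset.coe_product, Finset.coe_insert, Finset.coe_singleton, Finset.coe_univ,
    Set.mem_prod, Set.mem_insert_iff, Set.mem_singleton_iff, Set.mem_univ, and_true]
  omega

theorem conn : T.Connected := by
  have h : ∀ (i : ℤ) (b : Bool), T.Reachable (0, false) (i, b) := by
    have h0 : ∀ b, T.Reachable (0, false) (0, b) := fun b =>
      (Adj.reachable (show T.Adj (0, false) (1, false) from Or.inl rfl)).trans
        (Adj.reachable (show T.Adj (1, false) (0, b) from Or.inr rfl))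
    intro i
    induction i using Int.induction_on with
    | zero => exact h0
    | succ n ih => exact fun b => (ih false).trans (Adj.reachable (Or.inl rfl))
    | pred n ih => exact fun b => (ih false).trans (Adj.reachable (Or.inr (by simp)))
  exact ⟨fun x y => (h x.1 x.2).symm.trans (h y.1 y.2)⟩

theorem trans : VertexTransitive T := by
  rintro ⟨i, a⟩ ⟨j, b⟩
  refine ⟨⟨(Equiv.addRight (j - i)).prodCongr (Equiv.swap a b), ?_⟩, ?_⟩
  · rintro ⟨x, c⟩ ⟨y, d⟩
    show (x + (j - i) + 1 = y + (j - i) ∨ y + (j - i) + 1 = x + (j - i)) ↔ (x + 1 = y ∨ y + 1 = x)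
    omega
  · show ((i + (j - i), Equiv.swap a b a) : ℤ × Bool) = (j, b)
    simp

/-- There is an infinite, connected, locally finite, vertex-transitive graph on which no harmonic
function with integer values is injective. -/
theorem result : ∃ (V : Type) (G : SimpleGraph V) (_ : G.LocallyFinite), Infinite V ∧ G.Connected ∧
    VertexTransitive G ∧ ∀ f : V → ℤ, Harmonic G f → ¬ Function.Injective f := by
  refine ⟨ℤ × Bool, T, fun v => (fin v).fintype, inferInstance, conn, trans, fun f hf hinj => ?_⟩
  letI : T.LocallyFinite := fun v => (fin v).fintype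
  have h0 := hf (0, false)
  have h1 := hf (0, true)
  have e : T.neighborFinset (0, true) = T.neighborFinset (0, false) := by
    ext x
    rw [mem_neighborFinset, mem_neighborFinset]
    rfl
  have hd : T.degree (0, true) = T.degree (0, false) := by
    rw [← card_neighborFinset_eq_degree, e, card_neighborFinset_eq_degree]
  have hp : 0 < T.degree (0, false) :=
    (T.degree_pos_iff_exists_adj _).2 ⟨(1, false), Or.inl rfl⟩
  rw [e, hd, ← h0] at h1
  have := hinj (mul_left_cancel₀ (by exact_mod_cast hp.ne') h1)
  simp at this

end Pool.Agent.Results.MP_798444_co.Twins
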